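import Pool.Agent.H20.MT.Stmts

/-!
# Project MTA, module ERR
-/

set_option autoImplicit false

namespace MTA
open Finset

private lemma err_prime {W : ℕ} {Y : ℝ} (p : ↥(PP W Y)) : (p : ℕ).Prime ∧ ¬ (p : ℕ) ∣ W := by
  have := p.2
  unfold PP at this
  rw [mem_filter] at this
  exact this.2

private lemma err_cop {W : ℕ} {Y : ℝ} (p : ↥(PP W Y)) : (p : ℕ).Coprime W :=
  (Nat.Prime.coprime_iff_not_dvd (err_prime p).1).mpr (err_prime p).2

private lemma err_qq_cop {W n : ℕ} {Y : ℝ} (D : Cfg (PP W Y) n) : (qq D).Coprime W := by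
  unfold qq
  apply Nat.Coprime.prod_left
  intro p _
  split_ifs
  · exact err_cop p
  · exact Nat.coprime_one_left W

private lemma err_qq_pos {W n : ℕ} {Y : ℝ} (D : Cfg (PP W Y) n) : 0 < qq D := by
  unfold qq
  apply Finset.prod_pos
  intro p _
  split_ifs
  · exact (err_prime p).1.pos
  · exact one_pos

private lemma err_qq_sqf {W n : ℕ} {Y : ℝ} (D : Cfg (PP W Y) n) : Squarefree (qq D) := by
  unfold qq
  apply Finset.squarefree_prod_of_pairwise_isCoprime
  · intro p _ q _ hpq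
    show IsRelPrime _ _
    rw [← Nat.coprime_iff_isRelPrime]
    dsimp only
    split_ifs
    · rw [Nat.coprime_primes (err_prime p).1 (err_prime q).1]
      exact fun h => hpq (Subtype.ext h)
    · exact Nat.coprime_one_right _
    · exact Nat.coprime_one_left _
    · exact Nat.coprime_one_left _
  · intro p _
    split_ifs
    · exact (err_prime p).1.squarefree
    · exact squarefree_one

private lemma err_sqf_lcm {a b : ℕ} (ha : Squarefree a) (hb : Squarefree b) :
    Squarefree (Nat.lcm a b) := by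
  have ha0 : a ≠ 0 := ha.ne_zero
  have hb0 : b ≠ 0 := hb.ne_zero
  rw [Nat.squarefree_iff_factorization_le_one (Nat.lcm_ne_zero ha0 hb0)]
  intro p
  rw [Nat.factorization_lcm ha0 hb0]
  have h1 := (Nat.squarefree_iff_factorization_le_one ha0).mp ha p
  have h2 := (Nat.squarefree_iff_factorization_le_one hb0).mp hb p
  exact max_le h1 h2

private lemma err_cop_lcm {a b W : ℕ} (ha : a.Coprime W) (hb : b.Coprime W) :
    (Nat.lcm a b).Coprime W := by
  exact Nat.Coprime.coprime_dvd_left (Nat.lcm_dvd_mul a b) (Nat.Coprime.mul_left ha hb)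

private lemma err_lcm_le {a b : ℕ} {x y : ℝ} (ha0 : 0 < a) (hb0 : 0 < b) (ha : (a : ℝ) ≤ x)
    (hb : (b : ℝ) ≤ y) : ((Nat.lcm a b : ℕ) : ℝ) ≤ x * y := by
  have h1 : Nat.lcm a b ≤ a * b := Nat.le_of_dvd (Nat.mul_pos ha0 hb0) (Nat.lcm_dvd_mul a b)
  have h2 : ((Nat.lcm a b : ℕ) : ℝ) ≤ (a : ℝ) * b := by exact_mod_cast h1
  have h3 : (0 : ℝ) ≤ x := le_trans (by positivity) ha
  exact h2.trans (mul_le_mul ha hb (by positivity) h3)

/-- number of configurations whose modulus divides `q` -/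
private lemma err_card {W n : ℕ} {Y : ℝ} (q : ℕ) (hq : 0 < q) :
    ∑ D : Cfg (PP W Y) n, (if qq D ∣ q then (1 : ℝ) else 0) ≤
      ((n + 2 : ℕ) : ℝ) ^ q.primeFactors.card := by
  rw [Finset.sum_boole]
  have h1 : univ.filter (fun D : Cfg (PP W Y) n => qq D ∣ q) ⊆
      Fintype.piFinset (fun p : ↥(PP W Y) =>
        if (p : ℕ) ∣ q then (univ : Finset (Option (Fin (n + 1)))) else {none}) := by
    intro D hD
    rw [mem_filter] at hD
    rw [Fintype.mem_piFinset]
    intro p
    split_ifs with h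
    · exact mem_univ _
    · rw [mem_singleton]
      by_contra hne
      apply h
      have h2 : (if (D p).isSome then (p : ℕ) else 1) ∣ qq D := by
        unfold qq
        exact Finset.dvd_prod_of_mem (fun p : ↥(PP W Y) => if (D p).isSome then (p : ℕ) else 1)
          (mem_univ p)
      rw [if_pos (Option.isSome_iff_ne_none.mpr hne)] at h2
      exact h2.trans hD.2
  have h2 := Finset.card_le_card h1
  have h3 : (Fintype.piFinset (fun p : ↥(PP W Y) =>
        if (p : ℕ) ∣ q then (univ : Finset (Option (Fin (n + 1)))) else {none})).card ≤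
        (n + 2) ^ q.primeFactors.card := by
    rw [Fintype.card_piFinset]
    have e1 : ∀ p : ↥(PP W Y), (if (p : ℕ) ∣ q then (univ : Finset (Option (Fin (n + 1)))) else
        {none}).card = if (p : ℕ) ∣ q then n + 2 else 1 := by
      intro p
      split_ifs
      · simp
      · simp
    rw [Finset.prod_congr rfl (fun p _ => e1 p), Finset.prod_ite, Finset.prod_const,
      Finset.prod_const_one, mul_one]
    apply Nat.pow_le_pow_right (by omega)
    apply Finset.card_le_card_of_injOn (fun p : ↥(PP W Y) => (p : ℕ))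
    · intro p hp
      rw [Finset.mem_coe, mem_filter] at hp
      rw [Finset.mem_coe, Nat.mem_primeFactors]
      exact ⟨(err_prime p).1, hp.2, by omega⟩
    · intro a _ b _ hab
      exact Subtype.ext hab
  exact_mod_cast h2.trans h3

private lemma err_cardp {W : ℕ} {z : ℝ} (q : ℕ) (hq : 0 < q) :
    ∑ p ∈ PP W z, (if p ∣ q then (1 : ℝ) else 0) ≤ 2 ^ q.primeFactors.card := by
  rw [Finset.sum_boole]
  have h1 : ((PP W z).filter (fun p => p ∣ q)).card ≤ q.primeFactors.card := by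
    apply Finset.card_le_card
    intro p hp
    rw [mem_filter] at hp
    rw [Nat.mem_primeFactors]
    exact ⟨(err_prime ⟨p, hp.1⟩).1, hp.2, by omega⟩
  have h2 : q.primeFactors.card < 2 ^ q.primeFactors.card := Nat.lt_two_pow_self
  exact_mod_cast h1.trans h2.le

theorem ERR : S_ERR := by
  intro W n Y l B Q0 z f hW hB hQ0 hz hzY hf hl hlQ
  set S := (Icc 1 ⌊Q0 ^ 2 * z⌋₊).filter (fun q => Squarefree q ∧ q.Coprime W) with hS
  have hS0 : ∀ q ∈ S, 0 < q := by
    intro q hq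
    rw [hS, mem_filter, mem_Icc] at hq
    omega
  have hlB : ∀ D E, |l D| * |l E| ≤ B ^ 2 := by
    intro D E
    rw [sq]
    exact mul_le_mul (hl D) (hl E) (abs_nonneg _) hB
  -- membership
  have hmem1 : ∀ D E, l D ≠ 0 → l E ≠ 0 → Nat.lcm (qq D) (qq E) ∈ S := by
    intro D E hD hE
    rw [hS, mem_filter, mem_Icc]
    refine ⟨⟨Nat.pos_of_ne_zero (Nat.lcm_ne_zero (err_qq_pos D).ne' (err_qq_pos E).ne'), ?_⟩,
      err_sqf_lcm (err_qq_sqf D) (err_qq_sqf E), err_cop_lcm (err_qq_cop D) (err_qq_cop E)⟩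
    apply Nat.le_floor
    have := err_lcm_le (err_qq_pos D) (err_qq_pos E) (hlQ D hD) (hlQ E hE)
    calc ((Nat.lcm (qq D) (qq E) : ℕ) : ℝ) ≤ Q0 * Q0 := this
      _ = Q0 ^ 2 * 1 := by ring
      _ ≤ Q0 ^ 2 * z := by gcongr
  have hmem2 : ∀ p0 ∈ PP W z, ∀ D E, l D ≠ 0 → l E ≠ 0 →
      Nat.lcm (Nat.lcm (qq D) (qq E)) p0 ∈ S := by
    intro p0 hp0 D E hD hE
    have hp := err_prime ⟨p0, hp0⟩
    have hl0 : 0 < Nat.lcm (qq D) (qq E) :=
      Nat.pos_of_ne_zero (Nat.lcm_ne_zero (err_qq_pos D).ne' (err_qq_pos E).ne')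
    rw [hS, mem_filter, mem_Icc]
    refine ⟨⟨Nat.pos_of_ne_zero (Nat.lcm_ne_zero hl0.ne' hp.1.ne_zero), ?_⟩,
      err_sqf_lcm (err_sqf_lcm (err_qq_sqf D) (err_qq_sqf E)) hp.1.squarefree,
      err_cop_lcm (err_cop_lcm (err_qq_cop D) (err_qq_cop E)) (err_cop ⟨p0, hp0⟩)⟩
    apply Nat.le_floor
    have h1 := err_lcm_le (err_qq_pos D) (err_qq_pos E) (hlQ D hD) (hlQ E hE)
    have h2 : (p0 : ℝ) ≤ z := by
      unfold PP at hp0
      rw [mem_filter, mem_Icc] at hp0
      exact (Nat.cast_le.mpr hp0.1.2).trans (Nat.floor_le (by linarith))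
    have h3 := err_lcm_le hl0 hp.1.pos h1 h2
    calc _ ≤ Q0 * Q0 * z := h3
      _ = Q0 ^ 2 * z := by ring
  set a : Cfg (PP W Y) n → ℕ → ℝ := fun D q => if qq D ∣ q then (1 : ℝ) else 0 with ha
  set b : ℕ → ℕ → ℝ := fun p q => if p ∣ q then (1 : ℝ) else 0 with hb
  have ha0 : ∀ D q, 0 ≤ a D q := by
    intro D q
    simp only [ha]
    split_ifs <;> norm_num
  have hb0 : ∀ p q, 0 ≤ b p q := by
    intro D q
    simp only [hb]
    split_ifs <;> norm_num
  -- termwise bounds
  have ht1 : ∀ D E, |l D| * |l E| * f (Nat.lcm (qq D) (qq E)) ≤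
      ∑ q ∈ S, B ^ 2 * (a D q * a E q * f q) := by
    intro D E
    have hnn : ∀ q ∈ S, 0 ≤ B ^ 2 * (a D q * a E q * f q) := by
      intro q _
      have := ha0 D q
      have := ha0 E q
      have := hf q
      positivity
    by_cases hD : l D = 0
    · rw [hD, abs_zero, zero_mul, zero_mul]
      exact Finset.sum_nonneg hnn
    by_cases hE : l E = 0
    · rw [hE, abs_zero, mul_zero, zero_mul]
      exact Finset.sum_nonneg hnn
    refine le_trans ?_ (Finset.single_le_sum hnn (hmem1 D E hD hE))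
    have e1 : a D (Nat.lcm (qq D) (qq E)) = 1 := if_pos (Nat.dvd_lcm_left _ _)
    have e2 : a E (Nat.lcm (qq D) (qq E)) = 1 := if_pos (Nat.dvd_lcm_right _ _)
    rw [e1, e2, one_mul, one_mul]
    exact mul_le_mul_of_nonneg_right (hlB D E) (hf _)
  have ht2 : ∀ p0 ∈ PP W z, ∀ D E, |l D| * |l E| * f (Nat.lcm (Nat.lcm (qq D) (qq E)) p0) ≤
      ∑ q ∈ S, B ^ 2 * (a D q * a E q * f q * b p0 q) := by
    intro p0 hp0 D E
    have hnn : ∀ q ∈ S, 0 ≤ B ^ 2 * (a D q * a E q * f q * b p0 q) := by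
      intro q _
      have := ha0 D q
      have := ha0 E q
      have := hf q
      have := hb0 p0 q
      positivity
    by_cases hD : l D = 0
    · rw [hD, abs_zero, zero_mul, zero_mul]
      exact Finset.sum_nonneg hnn
    by_cases hE : l E = 0
    · rw [hE, abs_zero, mul_zero, zero_mul]
      exact Finset.sum_nonneg hnn
    refine le_trans ?_ (Finset.single_le_sum hnn (hmem2 p0 hp0 D E hD hE))
    have e1 : a D (Nat.lcm (Nat.lcm (qq D) (qq E)) p0) = 1 :=
      if_pos ((Nat.dvd_lcm_left _ _).trans (Nat.dvd_lcm_left _ _))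
    have e2 : a E (Nat.lcm (Nat.lcm (qq D) (qq E)) p0) = 1 :=
      if_pos ((Nat.dvd_lcm_right _ _).trans (Nat.dvd_lcm_left _ _))
    have e3 : b p0 (Nat.lcm (Nat.lcm (qq D) (qq E)) p0) = 1 := if_pos (Nat.dvd_lcm_right _ _)
    rw [e1, e2, e3, one_mul, one_mul, mul_one]
    exact mul_le_mul_of_nonneg_right (hlB D E) (hf _)
  -- sums
  have hs1 : ∑ D, ∑ E, |l D| * |l E| * f (Nat.lcm (qq D) (qq E)) ≤
      ∑ q ∈ S, B ^ 2 * ((∑ D, a D q) * (∑ E, a E q) * f q) := by
    calc _ ≤ ∑ D, ∑ E, ∑ q ∈ S, B ^ 2 * (a D q * a E q * f q) :=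
          Finset.sum_le_sum (fun D _ => Finset.sum_le_sum (fun E _ => ht1 D E))
      _ = ∑ q ∈ S, ∑ D, ∑ E, B ^ 2 * (a D q * a E q * f q) := by
          rw [Finset.sum_comm]
          rw [Finset.sum_congr rfl (fun E _ => Finset.sum_comm)]
          rw [Finset.sum_comm]
          apply Finset.sum_congr rfl
          intro q _
          rw [Finset.sum_comm]
      _ = _ := by
          apply Finset.sum_congr rfl
          intro q _
          rw [Finset.sum_mul_sum, Finset.sum_mul, Finset.mul_sum]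
          apply Finset.sum_congr rfl
          intro D _
          rw [Finset.sum_mul, Finset.mul_sum]
  have hs2 : ∑ p0 ∈ PP W z, ∑ D, ∑ E, |l D| * |l E| * f (Nat.lcm (Nat.lcm (qq D) (qq E)) p0) ≤
      ∑ q ∈ S, B ^ 2 * ((∑ D, a D q) * (∑ E, a E q) * f q) * ∑ p ∈ PP W z, b p q := by
    calc _ ≤ ∑ p0 ∈ PP W z, ∑ D, ∑ E, ∑ q ∈ S, B ^ 2 * (a D q * a E q * f q * b p0 q) :=
          Finset.sum_le_sum (fun p0 hp0 => Finset.sum_le_sum (fun D _ => Finset.sum_le_sum
            (fun E _ => ht2 p0 hp0 D E)))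
      _ = ∑ q ∈ S, ∑ p0 ∈ PP W z, ∑ D, ∑ E, B ^ 2 * (a D q * a E q * f q * b p0 q) := by
          rw [Finset.sum_comm (s := S)]
          apply Finset.sum_congr rfl
          intro p0 _
          rw [Finset.sum_comm (s := S)]
          apply Finset.sum_congr rfl
          intro D _
          rw [Finset.sum_comm]
      _ = _ := by
          apply Finset.sum_congr rfl
          intro q _
          rw [Finset.mul_sum]
          apply Finset.sum_congr rfl
          intro p0 _
          rw [Finset.sum_mul_sum, Finset.sum_mul, Finset.mul_sum, Finset.sum_mul]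
          apply Finset.sum_congr rfl
          intro D _
          rw [Finset.sum_mul, Finset.mul_sum, Finset.sum_mul]
          apply Finset.sum_congr rfl
          intro E _
          ring
  refine (add_le_add hs1 hs2).trans ?_
  rw [← Finset.sum_add_distrib, Finset.mul_sum]
  apply Finset.sum_le_sum
  intro q hq
  have hq0 := hS0 q hq
  have hc1 : ∑ D, a D q ≤ ((n + 2 : ℕ) : ℝ) ^ q.primeFactors.card := err_card q hq0
  have hc2 : ∑ p ∈ PP W z, b p q ≤ 2 ^ q.primeFactors.card := err_cardp q hq0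
  have hc0 : 0 ≤ ∑ D, a D q := Finset.sum_nonneg (fun D _ => ha0 D q)
  have hc0' : 0 ≤ ∑ p ∈ PP W z, b p q := Finset.sum_nonneg (fun p _ => hb0 p q)
  set w := q.primeFactors.card with hw
  set A := ∑ D, a D q with hA
  set N2 := ((n + 2 : ℕ) : ℝ) with hN2
  have hN0 : 0 ≤ N2 := Nat.cast_nonneg _
  have hAA : A * A ≤ (N2 ^ w) * (N2 ^ w) := mul_le_mul hc1 hc1 hc0 (by positivity)
  have hfq := hf q
  have hB2 : 0 ≤ B ^ 2 := by positivity
  have hK : ((8 * (n + 2) ^ 2 : ℕ) : ℝ) ^ w = 8 ^ w * ((N2 ^ w) * (N2 ^ w)) := by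
    rw [hN2]
    push_cast
    rw [mul_pow, ← pow_mul, mul_comm 2 w, pow_mul, sq]
  rw [hK]
  have h8 : (2 : ℝ) ^ w ≤ 8 ^ w := by gcongr; norm_num
  have h8' : (1 : ℝ) ≤ 8 ^ w := one_le_pow₀ (by norm_num)
  set T := (N2 ^ w) * (N2 ^ w) with hT
  have hT0 : 0 ≤ T := by positivity
  have g1 : B ^ 2 * (A * A * f q) ≤ B ^ 2 * (8 ^ w * T * f q) := by
    apply mul_le_mul_of_nonneg_left _ hB2
    apply mul_le_mul_of_nonneg_right _ hfq
    nlinarith
  have g2 : B ^ 2 * (A * A * f q) * ∑ p ∈ PP W z, b p q ≤ B ^ 2 * (8 ^ w * T * f q) := by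
    have k1 : B ^ 2 * (A * A * f q) ≤ B ^ 2 * (T * f q) := by
      apply mul_le_mul_of_nonneg_left _ hB2
      exact mul_le_mul_of_nonneg_right hAA hfq
    have k0 : 0 ≤ B ^ 2 * (T * f q) := by positivity
    calc B ^ 2 * (A * A * f q) * ∑ p ∈ PP W z, b p q ≤ B ^ 2 * (T * f q) * 8 ^ w :=
          mul_le_mul k1 (hc2.trans h8) hc0' k0
      _ = _ := by ring
  calc _ ≤ B ^ 2 * (8 ^ w * T * f q) + B ^ 2 * (8 ^ w * T * f q) := add_le_add g1 g2
    _ = 2 * B ^ 2 * (8 ^ w * T * f q) := by ring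

end MTA
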