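import Pool.Agent.H20.MT.Stmts

/-!
# Project MTA, module MSUM
-/

set_option autoImplicit false

namespace MTA
open Finset

/-- indicator of coprimality with `W`, shifted -/
private noncomputable def cc (W m : ℕ) : ℝ := if (m + 1).Coprime W then 1 else 0

private lemma cc_nonneg (W m : ℕ) : 0 ≤ cc W m := by unfold cc; split_ifs <;> norm_num
private lemma cc_le (W m : ℕ) : cc W m ≤ 1 := by unfold cc; split_ifs <;> norm_num

/-- density -/
private noncomputable def bb (W : ℕ) : ℝ := (W.totient : ℝ) / W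

private lemma bb_nonneg (W : ℕ) : 0 ≤ bb W := by unfold bb; positivity
private lemma bb_le (W : ℕ) : bb W ≤ 1 := by
  unfold bb
  apply div_le_one_of_le₀ _ (by positivity)
  exact_mod_cast Nat.totient_le W

private lemma cc_period (W N : ℕ) : ∑ m ∈ range W, cc W (N + m) = W.totient := by
  rw [← Nat.filter_coprime_Ico_eq_totient W (N + 1), Finset.card_filter]
  rw [Finset.sum_Ico_eq_sum_range]
  push_cast
  rw [show N + 1 + W - (N + 1) = W by omega]
  apply Finset.sum_congr rfl
  intro m _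
  unfold cc
  have e : N + m + 1 = N + 1 + m := by ring
  by_cases h : (N + m + 1).Coprime W
  · rw [if_pos h, if_pos]
    rw [← e]
    exact h.symm
  · rw [if_neg h, if_neg]
    rw [← e]
    exact fun h' => h h'.symm

private lemma EE_bound (W : ℕ) (hW : 0 < W) : ∀ N : ℕ,
    |∑ m ∈ range N, (cc W m - bb W)| ≤ W := by
  intro N
  induction N using Nat.strong_induction_on with
  | _ N ih =>
    by_cases h : N < W
    · have h1 : ∀ m ∈ range N, |cc W m - bb W| ≤ 1 := by
        intro m _
        rw [abs_le]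
        constructor
        · linarith [cc_nonneg W m, bb_le W]
        · linarith [cc_le W m, bb_nonneg W]
      calc |∑ m ∈ range N, (cc W m - bb W)| ≤ ∑ m ∈ range N, |cc W m - bb W| :=
            Finset.abs_sum_le_sum_abs _ _
        _ ≤ ∑ m ∈ range N, (1 : ℝ) := Finset.sum_le_sum h1
        _ = N := by simp
        _ ≤ W := by exact_mod_cast h.le
    · obtain ⟨k, rfl⟩ : ∃ k, N = k + W := ⟨N - W, by omega⟩
      have h2 := ih k (by omega)
      rw [Finset.sum_range_add]
      have h3 : ∑ m ∈ range W, (cc W (k + m) - bb W) = 0 := by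
        rw [Finset.sum_sub_distrib, cc_period]
        simp only [Finset.sum_const, Finset.card_range, nsmul_eq_mul]
        unfold bb
        have : (W : ℝ) ≠ 0 := by positivity
        field_simp
        ring
      rw [h3, add_zero]
      exact h2

private lemma S_bound (W : ℕ) (hW : 0 < W) : ∀ N : ℕ, 1 ≤ N →
    |∑ m ∈ range N, (cc W m - bb W) / ((m : ℝ) + 1) - (∑ m ∈ range N, (cc W m - bb W)) / N| ≤
      W * (1 - 1 / N) := by
  intro N hN
  induction N, hN using Nat.le_induction with
  | base => simp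
  | succ N hN ih =>
    have hN' : (0 : ℝ) < N := by exact_mod_cast hN
    have hE := EE_bound W hW N
    rw [Finset.sum_range_succ, Finset.sum_range_succ]
    set S := ∑ m ∈ range N, (cc W m - bb W) / ((m : ℝ) + 1)
    set E := ∑ m ∈ range N, (cc W m - bb W)
    push_cast
    have e1 : S + (cc W N - bb W) / ((N : ℝ) + 1) - (E + (cc W N - bb W)) / ((N : ℝ) + 1) =
        (S - E / N) + E * (1 / N - 1 / (N + 1)) := by
      field_simp
      ring
    rw [e1]
    have h4 : (0 : ℝ) ≤ 1 / N - 1 / (N + 1) := by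
      rw [sub_nonneg]
      apply one_div_le_one_div_of_le hN'
      linarith
    calc |(S - E / N) + E * (1 / N - 1 / (N + 1))|
        ≤ |S - E / N| + |E * (1 / N - 1 / (N + 1))| := abs_add_le _ _
      _ ≤ W * (1 - 1 / N) + W * (1 / N - 1 / (N + 1)) := by
          apply add_le_add ih
          rw [abs_mul, abs_of_nonneg h4]
          exact mul_le_mul_of_nonneg_right hE h4
      _ = W * (1 - 1 / ((N : ℝ) + 1)) := by ring

/-- sum over integers coprime to `W` -/
private noncomputable def HH (W N : ℕ) : ℝ :=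
  ∑ m ∈ (Icc 1 N).filter (fun a => a.Coprime W), (1 : ℝ) / m

private lemma HH_eq (W N : ℕ) : HH W N = ∑ m ∈ range N, cc W m / ((m : ℝ) + 1) := by
  unfold HH
  rw [Finset.sum_filter, ← Finset.Ico_add_one_right_eq_Icc, Finset.sum_Ico_eq_sum_range]
  rw [show N + 1 - 1 = N by omega]
  apply Finset.sum_congr rfl
  intro m _
  unfold cc
  rw [add_comm 1 m]
  split_ifs <;> simp

private lemma HH_log (W : ℕ) (hW : 0 < W) (M : ℕ) (hM : 1 ≤ M) :
    |HH W M - bb W * Real.log M| ≤ W + 1 := by
  have hM' : (0 : ℝ) < M := by exact_mod_cast hM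
  have h1 : |HH W M - bb W * (harmonic M : ℝ)| ≤ W := by
    have e : HH W M - bb W * (harmonic M : ℝ) = ∑ m ∈ range M, (cc W m - bb W) / ((m : ℝ) + 1) := by
      rw [HH_eq]
      unfold harmonic
      push_cast
      rw [Finset.mul_sum, ← Finset.sum_sub_distrib]
      apply Finset.sum_congr rfl
      intro m _
      rw [sub_div]
      rfl
    rw [e]
    have h2 := S_bound W hW M hM
    have h3 := EE_bound W hW M
    set S := ∑ m ∈ range M, (cc W m - bb W) / ((m : ℝ) + 1)
    set E := ∑ m ∈ range M, (cc W m - bb W)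
    have h4 : |E / M| ≤ W / M := by
      rw [abs_div, abs_of_pos hM']
      gcongr
    calc |S| = |(S - E / M) + E / M| := by ring_nf
      _ ≤ |S - E / M| + |E / M| := abs_add_le _ _
      _ ≤ W * (1 - 1 / M) + W / M := add_le_add h2 h4
      _ = W := by field_simp; ring
  have h5 : |bb W * (harmonic M : ℝ) - bb W * Real.log M| ≤ 1 := by
    rw [← mul_sub, abs_mul, abs_of_nonneg (bb_nonneg W)]
    have h6 : |(harmonic M : ℝ) - Real.log M| ≤ 1 := by
      rw [abs_le]
      have a1 := log_add_one_le_harmonic M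
      have a2 := harmonic_le_one_add_log M
      have a3 : Real.log M ≤ Real.log ((M : ℝ) + 1) := Real.log_le_log hM' (by linarith)
      constructor
      · push_cast at a1
        linarith
      · linarith
    calc bb W * |(harmonic M : ℝ) - Real.log M| ≤ 1 * 1 :=
          mul_le_mul (bb_le W) h6 (abs_nonneg _) (by norm_num)
      _ = 1 := by norm_num
  calc |HH W M - bb W * Real.log M| = |(HH W M - bb W * (harmonic M : ℝ)) +
        (bb W * (harmonic M : ℝ) - bb W * Real.log M)| := by ring_nf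
    _ ≤ _ := abs_add_le _ _
    _ ≤ W + 1 := add_le_add h1 h5

/-! ### squarefree part -/

private lemma sq_dvd_iff {a b e : ℕ} (ha : Squarefree a) (hb : 0 < b) :
    e ^ 2 ∣ b ^ 2 * a ↔ e ∣ b := by
  constructor
  · intro h
    obtain ⟨g, e', b', hg, hc, rfl, rfl⟩ : ∃ g e' b' : ℕ, 0 < g ∧ e'.Coprime b' ∧
        e = e' * g ∧ b = b' * g := by
      have := Nat.exists_coprime' (m := e) (n := b) (Nat.gcd_pos_of_pos_right _ hb)
      obtain ⟨g, m', n', h1, h2, h3, h4⟩ := this
      exact ⟨g, m', n', h1, h2, h3, h4⟩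
    have h1 : e' ^ 2 ∣ b' ^ 2 * a := by
      have h2 : g ^ 2 * e' ^ 2 ∣ g ^ 2 * (b' ^ 2 * a) := by
        convert h using 1 <;> ring
      exact Nat.dvd_of_mul_dvd_mul_left (by positivity) h2
    have h2 : e' ^ 2 ∣ a := (Nat.Coprime.pow 2 2 hc).dvd_of_dvd_mul_left h1
    have h3 : IsUnit e' := ha e' (by rw [← sq]; exact h2)
    have h4 : e' = 1 := Nat.isUnit_iff.mp h3
    rw [h4, one_mul]
    exact Dvd.intro_left b' rfl
  · intro h
    exact Dvd.dvd.mul_right (pow_dvd_pow_of_dvd h 2) a

private lemma moebius_sum (m N : ℕ) (hm : 0 < m) (hN : m ≤ N) :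
    ∑ e ∈ (Icc 1 N).filter (fun e => e ^ 2 ∣ m), (ArithmeticFunction.moebius e : ℝ) =
      if Squarefree m then 1 else 0 := by
  obtain ⟨a, b, ha, hb, hab, hsq⟩ := Nat.sq_mul_squarefree_of_pos hm
  have e1 : (Icc 1 N).filter (fun e => e ^ 2 ∣ m) = b.divisors := by
    ext e
    simp only [mem_filter, mem_Icc, Nat.mem_divisors]
    rw [← hab, sq_dvd_iff hsq hb]
    constructor
    · rintro ⟨_, h⟩
      exact ⟨h, by omega⟩
    · rintro ⟨h, _⟩
      refine ⟨⟨Nat.pos_of_dvd_of_pos h hb, ?_⟩, h⟩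
      have h1 := Nat.le_of_dvd hb h
      have h2 : b ≤ b ^ 2 * a := by nlinarith
      omega
  rw [e1]
  have e2 := ArithmeticFunction.coe_mul_zeta_apply (f := (ArithmeticFunction.moebius : ArithmeticFunction ℤ)) (x := b)
  have e3 : ∑ i ∈ b.divisors, ArithmeticFunction.moebius i = if b = 1 then 1 else 0 := by
    rw [← e2, ArithmeticFunction.moebius_mul_coe_zeta]
    rw [ArithmeticFunction.one_apply]
  have e4 : ∑ i ∈ b.divisors, (ArithmeticFunction.moebius i : ℝ) = if b = 1 then 1 else 0 := by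
    have := congrArg (Int.cast : ℤ → ℝ) e3
    push_cast at this
    exact this
  rw [e4]
  by_cases h : b = 1
  · rw [if_pos h, if_pos]
    rw [← hab, h]
    simpa using hsq
  · rw [if_neg h, if_neg]
    intro h1
    apply h
    have : IsUnit b := h1 b (by rw [← hab, sq]; exact Dvd.intro a rfl)
    exact Nat.isUnit_iff.mp this

private lemma inner_sum (W N e : ℕ) (he : 1 ≤ e) :
    ∑ m ∈ ((Icc 1 N).filter (fun a => a.Coprime W)).filter (fun m => e ^ 2 ∣ m), (1 : ℝ) / m =
      if e.Coprime W then 1 / (e : ℝ) ^ 2 * HH W (N / e ^ 2) else 0 := by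
  have he2 : 0 < e ^ 2 := by positivity
  split_ifs with h
  · have e1 : ((Icc 1 N).filter (fun a => a.Coprime W)).filter (fun m => e ^ 2 ∣ m) =
        ((Icc 1 (N / e ^ 2)).filter (fun a => a.Coprime W)).image (fun k => e ^ 2 * k) := by
      ext m
      simp only [mem_filter, mem_Icc, mem_image]
      constructor
      · rintro ⟨⟨⟨h1, h2⟩, h3⟩, k, rfl⟩
        refine ⟨k, ⟨⟨Nat.pos_of_mul_pos_left h1, ?_⟩, ?_⟩, rfl⟩
        · rw [Nat.le_div_iff_mul_le he2]
          linarith [mul_comm k (e ^ 2)]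
        · exact Nat.Coprime.coprime_dvd_left (Dvd.intro_left _ rfl) h3
      · rintro ⟨k, ⟨⟨h1, h2⟩, h3⟩, rfl⟩
        rw [Nat.le_div_iff_mul_le he2] at h2
        refine ⟨⟨⟨Nat.mul_pos he2 h1, by linarith [mul_comm k (e ^ 2)]⟩, ?_⟩, Dvd.intro k rfl⟩
        exact Nat.Coprime.mul_left (Nat.Coprime.pow_left 2 h) h3
    rw [e1, Finset.sum_image]
    · unfold HH
      rw [Finset.mul_sum]
      apply Finset.sum_congr rfl
      intro k _
      push_cast
      rw [one_div_mul_one_div]
    · intro a _ b _ hab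
      exact Nat.eq_of_mul_eq_mul_left he2 hab
  · apply Finset.sum_eq_zero
    intro m hm
    simp only [mem_filter, mem_Icc] at hm
    exfalso
    apply h
    exact Nat.Coprime.coprime_dvd_left ((dvd_pow_self e (by norm_num)).trans hm.2) hm.1.2

/-- the coefficients -/
private noncomputable def fe (W e : ℕ) : ℝ :=
  if e.Coprime W then (ArithmeticFunction.moebius e : ℝ) * (1 / (e : ℝ) ^ 2) else 0

private noncomputable def MM (W N : ℕ) : ℝ :=
  ∑ a ∈ (Icc 1 N).filter (fun a => Squarefree a ∧ a.Coprime W), (1 : ℝ) / a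

private lemma MM_eq (W N : ℕ) : MM W N = ∑ e ∈ Icc 1 N, fe W e * HH W (N / e ^ 2) := by
  unfold MM
  have e1 : ∑ a ∈ (Icc 1 N).filter (fun a => Squarefree a ∧ a.Coprime W), (1 : ℝ) / a =
      ∑ m ∈ (Icc 1 N).filter (fun a => a.Coprime W), ∑ e ∈ Icc 1 N,
        if e ^ 2 ∣ m then (ArithmeticFunction.moebius e : ℝ) * (1 / m) else 0 := by
    have e2 : (Icc 1 N).filter (fun a => Squarefree a ∧ a.Coprime W) =
        ((Icc 1 N).filter (fun a => a.Coprime W)).filter (fun a => Squarefree a) := by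
      ext a
      simp only [mem_filter]
      tauto
    rw [e2, Finset.sum_filter]
    apply Finset.sum_congr rfl
    intro m hm
    simp only [mem_filter, mem_Icc] at hm
    rw [← Finset.sum_filter, ← Finset.sum_mul, moebius_sum m N (by omega) hm.1.2]
    split_ifs <;> simp
  rw [e1, Finset.sum_comm]
  apply Finset.sum_congr rfl
  intro e he
  rw [← Finset.sum_filter, ← Finset.mul_sum, inner_sum W N e (mem_Icc.mp he).1]
  unfold fe
  split_ifs <;> ring

private lemma fe_abs (W e : ℕ) : |fe W e| ≤ 1 / (e : ℝ) ^ 2 := by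
  unfold fe
  split_ifs
  · rw [abs_mul]
    have h1 : |(ArithmeticFunction.moebius e : ℝ)| ≤ 1 := by
      have := ArithmeticFunction.abs_moebius_le_one (n := e)
      exact_mod_cast this
    have h2 : (0 : ℝ) ≤ 1 / (e : ℝ) ^ 2 := by positivity
    rw [abs_of_nonneg h2]
    calc _ ≤ 1 * (1 / (e : ℝ) ^ 2) := mul_le_mul_of_nonneg_right h1 h2
      _ = _ := one_mul _
  · rw [abs_zero]
    positivity

private lemma summable_two : Summable (fun e : ℕ => 1 / (e : ℝ) ^ 2) :=
  hasSum_zeta_two.summable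

private lemma fe_summable (W : ℕ) : Summable (fe W) :=
  Summable.of_norm_bounded summable_two (fun e => by rw [Real.norm_eq_abs]; exact fe_abs W e)

private lemma fe_tsum_lower (W : ℕ) : 1 / 3 ≤ ∑' e, fe W e := by
  have h1 : ∀ e, 0 ≤ fe W e + 1 / (e : ℝ) ^ 2 := by
    intro e
    have := (abs_le.mp (fe_abs W e)).1
    linarith
  have h2 : Summable (fun e => fe W e + 1 / (e : ℝ) ^ 2) := (fe_summable W).add summable_two
  have h3 := h2.le_tsum 1 (fun e _ => h1 e)
  have h4 : ∑' e, (fe W e + 1 / (e : ℝ) ^ 2) = ∑' e, fe W e + Real.pi ^ 2 / 6 := by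
    rw [(fe_summable W).tsum_add summable_two, hasSum_zeta_two.tsum_eq]
  have h5 : fe W 1 = 1 := by
    unfold fe
    simp
  rw [h4, h5] at h3
  have h6 : Real.pi < 3.15 := Real.pi_lt_d2
  have h7 : 0 < Real.pi := Real.pi_pos
  have h8 : Real.pi ^ 2 ≤ 3.15 ^ 2 := by gcongr
  norm_num at h3
  linarith

/-- the bound of the summands -/
private lemma term_bound (W : ℕ) (hW : 0 < W) (N e : ℕ) (hN : 1 ≤ N) :
    |fe W e * (HH W (N / e ^ 2) - bb W * Real.log N)| ≤
      1 / (e : ℝ) ^ 2 * (2 * Real.log e + (W + 2)) := by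
  rcases Nat.eq_zero_or_pos e with rfl | he
  · simp [fe]
  have hN' : (1 : ℝ) ≤ N := by exact_mod_cast hN
  have he' : (1 : ℝ) ≤ e := by exact_mod_cast he
  have hW' : (0 : ℝ) ≤ W := by positivity
  have hle : 0 ≤ Real.log e := Real.log_nonneg he'
  have hlN : 0 ≤ Real.log N := Real.log_nonneg hN'
  rw [abs_mul]
  apply mul_le_mul (fe_abs W e) _ (abs_nonneg _) (by positivity)
  by_cases h : e ^ 2 ≤ N
  · set M := N / e ^ 2 with hM
    have he2 : 0 < e ^ 2 := by positivity
    have hM1 : 1 ≤ M := by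
      rw [hM, Nat.le_div_iff_mul_le he2]
      omega
    have hM' : (1 : ℝ) ≤ M := by exact_mod_cast hM1
    have h1 := HH_log W hW M hM1
    have a1 : M * e ^ 2 ≤ N := Nat.div_mul_le_self N (e ^ 2)
    have a2 : N < (M + 1) * e ^ 2 := by
      have := Nat.lt_mul_div_succ N he2
      rw [← hM] at this
      linarith [mul_comm (e ^ 2) (M + 1)]
    have a1' : (M : ℝ) * (e : ℝ) ^ 2 ≤ N := by exact_mod_cast a1
    have a2' : (N : ℝ) ≤ (M + 1) * (e : ℝ) ^ 2 := by exact_mod_cast a2.le
    have b1 : Real.log M + 2 * Real.log e ≤ Real.log N := by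
      have := Real.log_le_log (by positivity) a1'
      rw [Real.log_mul (by positivity) (by positivity), Real.log_pow] at this
      push_cast at this
      linarith
    have b2 : Real.log N ≤ Real.log M + 1 + 2 * Real.log e := by
      have c1 : (N : ℝ) ≤ (2 * M) * (e : ℝ) ^ 2 := by
        refine a2'.trans ?_
        apply mul_le_mul_of_nonneg_right _ (by positivity)
        linarith
      have := Real.log_le_log (by positivity) c1
      rw [Real.log_mul (by positivity) (by positivity), Real.log_pow,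
        Real.log_mul (by positivity) (by positivity)] at this
      push_cast at this
      have := Real.log_two_lt_d9
      linarith
    have h2 : |bb W * Real.log M - bb W * Real.log N| ≤ 2 * Real.log e + 1 := by
      rw [← mul_sub, abs_mul, abs_of_nonneg (bb_nonneg W)]
      have h3 : |Real.log M - Real.log N| ≤ 2 * Real.log e + 1 := by
        rw [abs_le]
        constructor <;> linarith
      calc bb W * |Real.log M - Real.log N| ≤ 1 * (2 * Real.log e + 1) :=
            mul_le_mul (bb_le W) h3 (abs_nonneg _) (by norm_num)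
        _ = _ := one_mul _
    calc |HH W M - bb W * Real.log N| = |(HH W M - bb W * Real.log M) +
          (bb W * Real.log M - bb W * Real.log N)| := by ring_nf
      _ ≤ _ := abs_add_le _ _
      _ ≤ (W + 1) + (2 * Real.log e + 1) := add_le_add h1 h2
      _ = _ := by ring
  · have h1 : N / e ^ 2 = 0 := Nat.div_eq_of_lt (by omega)
    rw [h1]
    have h2 : HH W 0 = 0 := by simp [HH]
    rw [h2, zero_sub, abs_neg, abs_of_nonneg (mul_nonneg (bb_nonneg W) hlN)]
    have h3 : Real.log N ≤ 2 * Real.log e := by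
      have c1 : (N : ℝ) ≤ (e : ℝ) ^ 2 := by
        have : N ≤ e ^ 2 := by omega
        exact_mod_cast this
      have := Real.log_le_log (by positivity) c1
      rw [Real.log_pow] at this
      exact_mod_cast this
    calc bb W * Real.log N ≤ 1 * (2 * Real.log e) :=
          mul_le_mul (bb_le W) h3 hlN (by norm_num)
      _ ≤ _ := by linarith

private lemma bound_summable (c : ℝ) :
    Summable (fun e : ℕ => 1 / (e : ℝ) ^ 2 * (2 * Real.log e + c)) := by
  have h1 : Summable (fun e : ℕ => 4 * (1 / (e : ℝ) ^ (3 / 2 : ℝ)) + |c| * (1 / (e : ℝ) ^ 2)) := by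
    apply Summable.add
    · exact (Real.summable_one_div_nat_rpow.mpr (by norm_num)).mul_left 4
    · exact summable_two.mul_left _
  refine Summable.of_norm_bounded h1 ?_
  intro e
  rcases Nat.eq_zero_or_pos e with rfl | he
  · simp
  have he' : (1 : ℝ) ≤ e := by exact_mod_cast he
  have hle : 0 ≤ Real.log e := Real.log_nonneg he'
  rw [Real.norm_eq_abs, abs_mul, abs_of_nonneg (by positivity : (0 : ℝ) ≤ 1 / (e : ℝ) ^ 2)]
  have h2 : |2 * Real.log e + c| ≤ 2 * Real.log e + |c| := by
    refine (abs_add_le _ _).trans ?_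
    rw [abs_of_nonneg (by positivity)]
  have h3 : Real.log e ≤ 2 * (e : ℝ) ^ (1 / 2 : ℝ) := by
    have := Real.log_le_rpow_div (x := (e : ℝ)) (by positivity) (ε := 1 / 2) (by norm_num)
    linarith
  have h4 : 1 / (e : ℝ) ^ 2 * (4 * (e : ℝ) ^ (1 / 2 : ℝ)) = 4 * (1 / (e : ℝ) ^ (3 / 2 : ℝ)) := by
    have c1 : (e : ℝ) ^ 2 = (e : ℝ) ^ (1 / 2 : ℝ) * (e : ℝ) ^ (3 / 2 : ℝ) := by
      rw [← Real.rpow_add (by positivity), ← Real.rpow_natCast]
      norm_num
    rw [c1]
    have c2 : (e : ℝ) ^ (1 / 2 : ℝ) ≠ 0 := by positivity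
    have c3 : (e : ℝ) ^ (3 / 2 : ℝ) ≠ 0 := by positivity
    field_simp
  calc 1 / (e : ℝ) ^ 2 * |2 * Real.log e + c|
      ≤ 1 / (e : ℝ) ^ 2 * (4 * (e : ℝ) ^ (1 / 2 : ℝ) + |c|) := by
        apply mul_le_mul_of_nonneg_left _ (by positivity)
        linarith
    _ = _ := by rw [mul_add, h4]; ring

private lemma MM_log (W : ℕ) (hW : 0 < W) (N : ℕ) (hN : 1 ≤ N) :
    |MM W N - bb W * (∑' e, fe W e) * Real.log N| ≤
      ∑' e : ℕ, 1 / (e : ℝ) ^ 2 * (2 * Real.log e + (W + 2)) := by
  have hs1 : ∀ e ∉ Icc 1 N, fe W e * HH W (N / e ^ 2) = 0 := by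
    intro e he
    rcases Nat.eq_zero_or_pos e with rfl | he0
    · simp [fe]
    have h1 : N < e := by
      by_contra h
      exact he (mem_Icc.mpr ⟨he0, by omega⟩)
    have h2 : N / e ^ 2 = 0 := Nat.div_eq_of_lt (by nlinarith)
    rw [h2]
    simp [HH]
  have h1 : HasSum (fun e => fe W e * HH W (N / e ^ 2)) (MM W N) := by
    rw [MM_eq]
    exact hasSum_sum_of_ne_finset_zero hs1
  have h2 : HasSum (fun e => fe W e * (bb W * Real.log N))
      (bb W * (∑' e, fe W e) * Real.log N) := by
    have := (fe_summable W).hasSum.mul_right (bb W * Real.log N)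
    have e1 : bb W * (∑' e, fe W e) * Real.log N = (∑' e, fe W e) * (bb W * Real.log N) := by ring
    rw [e1]
    exact this
  have h3 : HasSum (fun e => fe W e * (HH W (N / e ^ 2) - bb W * Real.log N))
      (MM W N - bb W * (∑' e, fe W e) * Real.log N) := by
    have := h1.sub h2
    have e1 : (fun e => fe W e * (HH W (N / e ^ 2) - bb W * Real.log N)) =
        fun e => fe W e * HH W (N / e ^ 2) - fe W e * (bb W * Real.log N) := by
      funext e
      ring
    rw [e1]
    exact this
  rw [← h3.tsum_eq, ← Real.norm_eq_abs]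
  apply tsum_of_norm_bounded (bound_summable _).hasSum
  intro e
  rw [Real.norm_eq_abs]
  exact term_bound W hW N e hN

theorem MSUM : S_MSUM := by
  intro W hW
  set K := ∑' e, fe W e with hK
  set C0 := ∑' e : ℕ, 1 / (e : ℝ) ^ 2 * (2 * Real.log e + (W + 2)) with hC0
  have hMM := MM_log W hW
  have hK3 := fe_tsum_lower W
  rw [← hK] at hK3
  have hC0n : 0 ≤ C0 := (abs_nonneg _).trans (hMM 1 le_rfl)
  have hb := bb_nonneg W
  have hMH : ∀ N, MM W N ≤ HH W N := by
    intro N
    unfold MM HH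
    apply Finset.sum_le_sum_of_subset_of_nonneg
    · intro a
      simp only [mem_filter]
      tauto
    · intro i _ _
      positivity
  have hKb : bb W * K ≤ bb W := by
    by_contra hcon
    push Not at hcon
    set δ := bb W * K - bb W with hδ
    have hδ0 : 0 < δ := by linarith
    -- choose N large
    obtain ⟨N, hN⟩ := exists_nat_ge (Real.exp ((C0 + (W + 1) + 1) / δ))
    have hNpos : (0 : ℝ) < N := lt_of_lt_of_le (Real.exp_pos _) hN
    have hN1 : 1 ≤ N := by
      have : 0 < N := by exact_mod_cast hNpos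
      omega
    have h1 := (abs_le.mp (hMM N hN1)).1
    have h2 := (abs_le.mp (HH_log W hW N hN1)).2
    have h3 := hMH N
    have h4 : (C0 + (W + 1) + 1) / δ ≤ Real.log N := by
      rw [Real.le_log_iff_exp_le hNpos]
      exact hN
    have h5 : C0 + (W + 1) + 1 ≤ Real.log N * δ := by
      rwa [div_le_iff₀ hδ0] at h4
    have h6 : Real.log N * δ = bb W * K * Real.log N - bb W * Real.log N := by
      rw [hδ]; ring
    linarith
  refine ⟨bb W * K, C0 + 2, ?_, ?_, by linarith, ?_⟩
  · change bb W / 3 ≤ bb W * K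
    nlinarith
  · exact hKb
  · intro y hy
    have e1 : Msum W y = MM W ⌊y⌋₊ := rfl
    rw [e1]
    have hy1 : 1 ≤ ⌊y⌋₊ := (Nat.one_le_floor_iff y).mpr hy
    have h1 := hMM ⌊y⌋₊ hy1
    have hf1 : (1 : ℝ) ≤ ⌊y⌋₊ := by exact_mod_cast hy1
    have hf2 : (⌊y⌋₊ : ℝ) ≤ y := Nat.floor_le (by linarith)
    have hf3 : y ≤ ⌊y⌋₊ + 1 := (Nat.lt_floor_add_one y).le
    have g1 : Real.log ⌊y⌋₊ ≤ Real.log y := Real.log_le_log (by linarith) hf2
    have g2 : Real.log y ≤ Real.log ⌊y⌋₊ + 1 := by
      have : Real.log y ≤ Real.log (2 * ⌊y⌋₊) := Real.log_le_log (by linarith) (by linarith)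
      rw [Real.log_mul (by norm_num) (by positivity)] at this
      have := Real.log_two_lt_d9
      linarith
    have hbK0 : 0 ≤ bb W * K := mul_nonneg hb (by linarith)
    have hbK1 : bb W * K ≤ 1 := hKb.trans (bb_le W)
    have h2 : |bb W * K * Real.log ⌊y⌋₊ - bb W * K * Real.log y| ≤ 1 := by
      rw [← mul_sub, abs_mul, abs_of_nonneg hbK0]
      have h3 : |Real.log ⌊y⌋₊ - Real.log y| ≤ 1 := by
        rw [abs_le]
        constructor <;> linarith
      calc bb W * K * |Real.log ⌊y⌋₊ - Real.log y| ≤ 1 * 1 :=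
            mul_le_mul hbK1 h3 (abs_nonneg _) (by norm_num)
        _ = _ := one_mul _
    calc |MM W ⌊y⌋₊ - bb W * K * Real.log y| = |(MM W ⌊y⌋₊ - bb W * K * Real.log ⌊y⌋₊) +
          (bb W * K * Real.log ⌊y⌋₊ - bb W * K * Real.log y)| := by ring_nf
      _ ≤ _ := abs_add_le _ _
      _ ≤ C0 + 1 := add_le_add h1 h2
      _ ≤ C0 + 2 := by linarith

end MTA
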